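import Pool.Agent.H30.BV.Targets

/-!
# Mean value theorem over the primitive characters of conductor at most `Q`
-/

set_option autoImplicit false

open Finset Real ArithmeticFunction
open scoped Nat

namespace Pool.Agent.H89.BV

open Pool.Agent.H30.BV
open Pool.Agent.H27.LS (hat trig muGT gam)

private lemma mv_card (Q : ℕ) : ((PC Q).card : ℝ) ≤ (Q : ℝ) ^ 2 := by
  classical
  have h1 : (PC Q).card ≤ ∑ _n ∈ Ico 1 Q, Q := by
    unfold PC
    rw [Finset.card_sigma]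
    refine Finset.sum_le_sum fun n hn => ?_
    have hn' := mem_Ico.1 hn
    have h4 : Fintype.card (DirichletCharacter ℂ (n + 1)) = (n + 1).totient := by
      rw [← Nat.card_eq_fintype_card]
      exact DirichletCharacter.card_eq_totient_of_hasEnoughRootsOfUnity ℂ (n + 1)
    calc _ ≤ Fintype.card (DirichletCharacter ℂ (n + 1)) := Finset.card_le_univ _
      _ = (n + 1).totient := h4
      _ ≤ n + 1 := Nat.totient_le _
      _ ≤ Q := by omega
  have h2 : (PC Q).card ≤ Q * Q := by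
    refine h1.trans ?_
    rw [Finset.sum_const, smul_eq_mul, Nat.card_Ico]
    exact Nat.mul_le_mul_right _ (Nat.sub_le _ _)
  calc ((PC Q).card : ℝ) ≤ ((Q * Q : ℕ) : ℝ) := by exact_mod_cast h2
    _ = (Q : ℝ) ^ 2 := by push_cast; ring

private lemma mv_char {Q : ℕ} {x : PCH} (hx : x ∈ PC Q) :
    1 ≤ x.1 ∧ x.1 + 1 ≤ Q ∧ x.2 ≠ 1 := by
  classical
  unfold PC at hx
  rw [Finset.mem_sigma, mem_Ico] at hx
  refine ⟨hx.1.1, by omega, fun h => ?_⟩
  have h1 : x.2.IsPrimitive := (mem_filter.1 hx.2).2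
  rw [h, DirichletCharacter.isPrimitive_def, DirichletCharacter.conductor_one] at h1
  omega

theorem pf_MV (hLS : T_LS) (hT2 : T_T2) (hT1 : T_T1) (hCB : T_CB) : T_MV := by
  refine ⟨2000, by norm_num, fun X Q hX hQX => ?_⟩
  have hlog1 : 1 ≤ Real.log X := by
    rw [Real.le_log_iff_exp_le (by linarith)]
    exact (Real.exp_one_lt_d9.le.trans (by norm_num)).trans hX
  rcases Nat.lt_or_ge Q 2 with hQ | hQ
  · have h1 : PC Q = ∅ := by
      unfold PC
      rw [Finset.Ico_eq_empty (by omega)]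
      rfl
    rw [h1, Finset.sum_empty]
    positivity
  have hQR : (2 : ℝ) ≤ Q := by exact_mod_cast hQ
  have hQ0 : (0 : ℝ) < Q := by linarith
  have hX256 : 256 ≤ X := by
    refine le_trans ?_ hQX
    calc (256 : ℝ) = 2 ^ 8 := by norm_num
      _ ≤ (Q : ℝ) ^ 8 := by gcongr
  have hX0 : 0 < X := by linarith
  have hQ6 : (64 : ℝ) ≤ (Q : ℝ) ^ 6 := by
    calc (64 : ℝ) = 2 ^ 6 := by norm_num
      _ ≤ (Q : ℝ) ^ 6 := by gcongr
  have hU1 : 1 ≤ Q ^ 2 := Nat.one_le_pow _ _ (by omega)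
  have hUX : 3 * ((Q ^ 2 : ℕ) : ℝ) ≤ X := by
    push_cast
    refine le_trans ?_ hQX
    have h : (Q : ℝ) ^ 8 = (Q : ℝ) ^ 2 * (Q : ℝ) ^ 6 := by ring
    rw [h]
    have h2 : 0 ≤ (Q : ℝ) ^ 2 := by positivity
    nlinarith
  have hN : 3 * X ≤ (NX X : ℝ) := Nat.le_ceil _
  have hN2 : (NX X : ℝ) ≤ 3 * X + 1 := (Nat.ceil_lt_add_one (by positivity)).le
  have hlog4 : Real.log (4 * X) ≤ 2 * Real.log X := by
    rw [Real.log_mul (by norm_num) (by positivity)]
    have : Real.log 4 ≤ Real.log X := Real.log_le_log (by norm_num) (by linarith)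
    linarith
  have hlogN : Real.log ((NX X : ℝ) + 1) ≤ 2 * Real.log X :=
    (Real.log_le_log (by positivity) (by linarith)).trans hlog4
  have hlogN0 : 0 ≤ Real.log ((NX X : ℝ) + 1) := Real.log_nonneg (by linarith)
  -- the large sieve
  have hLSI : LSI (PC Q) (fun x : PCH => cv x.2) (Q : ℝ) := fun N a => hLS Q N a
  have hmul : ∀ x ∈ PC Q, ∀ m l : ℕ, cv x.2 (m * l) = cv x.2 m * cv x.2 l := by
    intro x _ m l
    unfold cv
    rw [Nat.cast_mul, map_mul]
  have h2 := hT2 PCH (PC Q) (fun x : PCH => cv x.2) Q hQ0.le hLSI hmul (Q ^ 2) X (NX X) hU1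
    (by linarith) hN
  have h1 : ∀ x ∈ PC Q, ‖TX X (cv x.2)‖ ≤ 5 * (((Q ^ 2 : ℕ) : ℝ) * ((Q ^ 2 : ℕ) : ℝ)) *
      Real.log ((NX X : ℝ) + 1) * Q +
      ‖∑ m ∈ range (NX X + 1), ∑ l ∈ range (NX X + 1), (muGT (Q ^ 2) m : ℂ) *
        (gam (Q ^ 2) l : ℂ) * (cv x.2 (m * l) * ((hat (Real.log (m * l / X)) : ℝ) : ℂ))‖ := by
    intro x hx
    obtain ⟨hx1, hx2, hx3⟩ := mv_char hx
    have hx0 : cv x.2 0 = 0 := by
      unfold cv
      have : Fact (1 < x.1 + 1) := ⟨by omega⟩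
      rw [Nat.cast_zero]
      exact MulChar.map_nonunit _ not_isUnit_zero
    have h3 := hT1 (cv x.2) Q (fun n => DirichletCharacter.norm_le_one x.2 _) hx0 (hmul x hx)
      (fun M => (hCB (x.1 + 1) x.2 (by omega) hx3 M).trans (by exact_mod_cast hx2)) (Q ^ 2) X hU1
      (by linarith) hUX
    have h4 := norm_add_le (TX X (cv x.2) - ∑ m ∈ range (NX X + 1), ∑ l ∈ range (NX X + 1),
      (muGT (Q ^ 2) m : ℂ) * (gam (Q ^ 2) l : ℂ) *
        (cv x.2 (m * l) * ((hat (Real.log (m * l / X)) : ℝ) : ℂ)))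
      (∑ m ∈ range (NX X + 1), ∑ l ∈ range (NX X + 1), (muGT (Q ^ 2) m : ℂ) *
        (gam (Q ^ 2) l : ℂ) * (cv x.2 (m * l) * ((hat (Real.log (m * l / X)) : ℝ) : ℂ)))
    rw [sub_add_cancel] at h4
    exact h4.trans (add_le_add h3 le_rfl)
  refine (Finset.sum_le_sum h1).trans ?_
  rw [Finset.sum_add_distrib, Finset.sum_const, nsmul_eq_mul]
  -- first part
  have hA : ((PC Q).card : ℝ) * (5 * (((Q ^ 2 : ℕ) : ℝ) * ((Q ^ 2 : ℕ) : ℝ)) *
      Real.log ((NX X : ℝ) + 1) * Q) ≤ 10 * X * Real.log X ^ 2 := by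
    have h3 := mv_card Q
    have h7 : (Q : ℝ) ^ 7 ≤ X := by
      refine le_trans ?_ hQX
      exact pow_le_pow_right₀ (by linarith) (by norm_num)
    calc ((PC Q).card : ℝ) * (5 * (((Q ^ 2 : ℕ) : ℝ) * ((Q ^ 2 : ℕ) : ℝ)) *
        Real.log ((NX X : ℝ) + 1) * Q)
        ≤ (Q : ℝ) ^ 2 * (5 * (((Q ^ 2 : ℕ) : ℝ) * ((Q ^ 2 : ℕ) : ℝ)) *
        Real.log ((NX X : ℝ) + 1) * Q) := mul_le_mul_of_nonneg_right h3 (by positivity)
      _ = 5 * (Q : ℝ) ^ 7 * Real.log ((NX X : ℝ) + 1) := by push_cast; ring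
      _ ≤ 5 * X * (2 * Real.log X) := by gcongr
      _ = 10 * X * Real.log X := by ring
      _ ≤ 10 * X * Real.log X ^ 2 := by
          apply mul_le_mul_of_nonneg_left _ (by positivity)
          nlinarith
  -- second part
  have hB : ((Nat.log 2 (NX X) : ℝ) + 1) * (4 * √X * Real.log (3 * X + 1) *
      ((Q : ℝ) ^ 2 + 16 * Q * √(X / ((Q ^ 2 : ℕ) : ℝ)) + 44 * √X)) ≤ 1952 * X * Real.log X ^ 2 := by
    have h3 : (Nat.log 2 (NX X) : ℝ) * Real.log 2 ≤ Real.log (NX X) := by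
      have h4 : (2 : ℝ) ^ (Nat.log 2 (NX X)) ≤ NX X := by
        have h5 : NX X ≠ 0 := by
          intro h
          rw [h] at hN
          norm_num at hN
          linarith
        exact_mod_cast Nat.pow_log_le_self 2 h5
      have h6 := Real.log_le_log (by positivity) h4
      rwa [Real.log_pow] at h6
    have h4 : (Nat.log 2 (NX X) : ℝ) ≤ 3 * Real.log X := by
      have h5 : Real.log (NX X) ≤ 2 * Real.log X :=
        (Real.log_le_log (by linarith) (by linarith)).trans hlog4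
      have h6 : (0.69 : ℝ) < Real.log 2 := by
        have := Real.log_two_gt_d9
        linarith
      have h7 : (0 : ℝ) ≤ Nat.log 2 (NX X) := Nat.cast_nonneg _
      nlinarith
    have h5 : (Q : ℝ) ^ 2 ≤ √X := by
      apply Real.le_sqrt_of_sq_le
      refine le_trans ?_ hQX
      rw [← pow_mul]
      exact pow_le_pow_right₀ (by linarith) (by norm_num)
    have h6 : (Q : ℝ) * √(X / ((Q ^ 2 : ℕ) : ℝ)) = √X := by
      push_cast
      rw [Real.sqrt_div' _ (by positivity), Real.sqrt_sq hQ0.le]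
      field_simp
    have h7 : Real.log (3 * X + 1) ≤ 2 * Real.log X :=
      (Real.log_le_log (by linarith) (by linarith)).trans hlog4
    have h8 : (Q : ℝ) ^ 2 + 16 * Q * √(X / ((Q ^ 2 : ℕ) : ℝ)) + 44 * √X ≤ 61 * √X := by
      rw [mul_assoc, h6]
      linarith
    have h9 : 0 ≤ Real.log (3 * X + 1) := Real.log_nonneg (by linarith)
    have h10 : √X * √X = X := Real.mul_self_sqrt hX0.le
    calc ((Nat.log 2 (NX X) : ℝ) + 1) * (4 * √X * Real.log (3 * X + 1) *
        ((Q : ℝ) ^ 2 + 16 * Q * √(X / ((Q ^ 2 : ℕ) : ℝ)) + 44 * √X))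
        ≤ (4 * Real.log X) * (4 * √X * (2 * Real.log X) * (61 * √X)) := by
          gcongr
          linarith
      _ = 1952 * (√X * √X) * Real.log X ^ 2 := by ring
      _ = 1952 * X * Real.log X ^ 2 := by rw [h10]
  have hfin := add_le_add hA (h2.trans hB)
  refine hfin.trans ?_
  have : 0 ≤ X * Real.log X ^ 2 := by positivity
  nlinarith

end Pool.Agent.H89.BV
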